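import Mathlib

set_option autoImplicit false

namespace Pool.Agent.H23.CC

section

variable {R : Type*} [CommRing R] [Nontrivial R] {x : R}

theorem unit_of (hx8 : x ^ 8 = 0) (a : R) (h : x ∣ a - 1) : IsUnit a := by
  obtain ⟨b, hb⟩ := h
  have hn : IsNilpotent (x * b) := ⟨8, by rw [mul_pow, hx8, zero_mul]⟩
  have h1 := hn.isUnit_one_add
  have : a = 1 + x * b := by linear_combination hb
  rwa [this]

theorem factor (hx8 : x ^ 8 = 0) (hres : ∀ a : R, x ∣ a ∨ x ∣ a - 1) (a : R) (n : ℕ) :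
    x ^ n ∣ a ∨ ∃ i, i < n ∧ ∃ u, IsUnit u ∧ a = x ^ i * u := by
  induction n with
  | zero => left; simp
  | succ n ih =>
    rcases ih with ⟨b, hb⟩ | ⟨i, hi, u, hu, ha⟩
    · rcases hres b with ⟨c, hc⟩ | h
      · left
        exact ⟨c, by rw [hb, hc, pow_succ]; ring⟩
      · right
        exact ⟨n, by omega, b, unit_of hx8 b h, hb⟩
    · right
      exact ⟨i, by omega, u, hu, ha⟩

theorem factor' (hx8 : x ^ 8 = 0) (hres : ∀ a : R, x ∣ a ∨ x ∣ a - 1) (a : R) (ha : a ≠ 0) :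
    ∃ i, ∃ u, IsUnit u ∧ a = x ^ i * u := by
  rcases factor hx8 hres a 8 with h | ⟨i, _, u, hu, h⟩
  · rw [hx8, zero_dvd_iff] at h
    exact absurd h ha
  · exact ⟨i, u, hu, h⟩

theorem chain (hx8 : x ^ 8 = 0) (hres : ∀ a : R, x ∣ a ∨ x ∣ a - 1) (I J : Ideal R) :
    I ≤ J ∨ J ≤ I := by
  by_contra hcon
  push Not at hcon
  obtain ⟨h1, h2⟩ := hcon
  rw [SetLike.not_le_iff_exists] at h1 h2
  obtain ⟨a, haI, haJ⟩ := h1
  obtain ⟨b, hbJ, hbI⟩ := h2
  have ha0 : a ≠ 0 := fun h => haJ (h ▸ J.zero_mem)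
  have hb0 : b ≠ 0 := fun h => hbI (h ▸ I.zero_mem)
  obtain ⟨i, u, hu, rfl⟩ := factor' hx8 hres a ha0
  obtain ⟨j, w, hw, rfl⟩ := factor' hx8 hres b hb0
  obtain ⟨u', rfl⟩ := hu
  obtain ⟨w', rfl⟩ := hw
  have hi : x ^ i ∈ I := by
    have := I.mul_mem_right (↑u'⁻¹ : R) haI
    rwa [mul_assoc, Units.mul_inv, mul_one] at this
  have hj : x ^ j ∈ J := by
    have := J.mul_mem_right (↑w'⁻¹ : R) hbJ
    rwa [mul_assoc, Units.mul_inv, mul_one] at this
  rcases Nat.le_total i j with h | h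
  · obtain ⟨k, rfl⟩ := Nat.exists_eq_add_of_le h
    apply hbI
    rw [pow_add, mul_assoc]
    exact I.mul_mem_right _ hi
  · obtain ⟨k, rfl⟩ := Nat.exists_eq_add_of_le h
    apply haJ
    rw [pow_add, mul_assoc]
    exact J.mul_mem_right _ hj

theorem not_unit (hx8 : x ^ 8 = 0) : ¬ IsUnit x := by
  intro h
  have := h.pow 8
  rw [hx8] at this
  exact not_isUnit_zero this

theorem maximal (hx8 : x ^ 8 = 0) (hres : ∀ a : R, x ∣ a ∨ x ∣ a - 1) :
    (Ideal.span {x}).IsMaximal := by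
  rw [Ideal.isMaximal_iff]
  refine ⟨?_, ?_⟩
  · intro h
    rw [Ideal.mem_span_singleton] at h
    exact not_unit hx8 (isUnit_of_dvd_one h)
  · intro J a hJ ha haJ
    rw [Ideal.mem_span_singleton] at ha
    have h1 := unit_of hx8 a ((hres a).resolve_left ha)
    obtain ⟨u, rfl⟩ := h1
    have := J.mul_mem_right (↑u⁻¹ : R) haJ
    rwa [Units.mul_inv] at this

theorem least (hx8 : x ^ 8 = 0) (hx7 : x ^ 7 ≠ 0) :
    IsLeast {t : ℕ | (Ideal.span {x} : Ideal R) ^ t = ⊥} 8 := by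
  constructor
  · change _ = _
    rw [Ideal.span_singleton_pow, hx8, Ideal.span_singleton_eq_bot]
  · intro t ht
    change _ = _ at ht
    rw [Ideal.span_singleton_pow, Ideal.span_singleton_eq_bot] at ht
    by_contra hlt
    push Not at hlt
    apply hx7
    have : 7 = t + (7 - t) := by omega
    rw [this, pow_add, ht, zero_mul]

theorem card_res (hx8 : x ^ 8 = 0) (hres : ∀ a : R, x ∣ a ∨ x ∣ a - 1) :
    Nat.card (R ⧸ (Ideal.span {x} : Ideal R)) = 2 := by
  rw [Nat.card_eq_two_iff]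
  refine ⟨Ideal.Quotient.mk _ 0, Ideal.Quotient.mk _ 1, ?_, ?_⟩
  · intro h
    rw [Ideal.Quotient.mk_eq_mk_iff_sub_mem, Ideal.mem_span_singleton] at h
    apply not_unit hx8
    rw [zero_sub] at h
    exact isUnit_of_dvd_unit h isUnit_one.neg
  · rw [Set.eq_univ_iff_forall]
    intro a
    obtain ⟨a, rfl⟩ := Ideal.Quotient.mk_surjective a
    rcases hres a with h | h
    · left
      rw [Ideal.Quotient.mk_eq_mk_iff_sub_mem, Ideal.mem_span_singleton, sub_zero]
      exact h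
    · right
      change _ = _
      rw [Ideal.Quotient.mk_eq_mk_iff_sub_mem, Ideal.mem_span_singleton]
      exact h

end

end Pool.Agent.H23.CC
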