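import Pool.Agent.H56.Circ.Chain
import Pool.Agent.H23.CC.Abs

set_option autoImplicit false

namespace Pool.Agent.H23.CC

open Polynomial

instance ntriv4 : Nontrivial (ZMod 4) := ⟨0, 1, by decide⟩

/-- The polynomial `X ^ 4 - (2 + t X)` over `ℤ/4`. -/
noncomputable def F (t : ZMod 4) : (ZMod 4)[X] := X ^ 4 - (C 2 + C t * X)

theorem F_monic (t : ZMod 4) : (F t).Monic := by
  unfold F
  apply monic_X_pow_sub
  refine lt_of_le_of_lt (b := (1 : WithBot ℕ)) ?_ (by norm_num)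
  compute_degree

theorem F_deg (t : ZMod 4) : (F t).natDegree = 4 := by
  have h : (C 2 + C t * X : (ZMod 4)[X]).natDegree < (X ^ 4 : (ZMod 4)[X]).natDegree := by
    rw [natDegree_X_pow]
    refine lt_of_le_of_lt (b := 1) ?_ (by norm_num)
    compute_degree
  unfold F
  rw [natDegree_sub_eq_left_of_natDegree_lt h, natDegree_X_pow]

/-- The ring `(ℤ/4)[x] / (x ^ 4 - 2 - t x)`. -/
abbrev A (t : ZMod 4) : Type := AdjoinRoot (F t)

/-- The class of `X`. -/
noncomputable def x (t : ZMod 4) : A t := AdjoinRoot.root (F t)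

/-- The image of `c`. -/
noncomputable def o (t : ZMod 4) : ZMod 4 →+* A t := AdjoinRoot.of (F t)

theorem four (t : ZMod 4) : (4 : A t) = 0 := by
  have h : o t (4 : ZMod 4) = o t 0 := by
    congr 1
  rwa [map_ofNat, map_zero] at h

theorem x4 (t : ZMod 4) : x t ^ 4 = 2 + o t t * x t := by
  have h := AdjoinRoot.mk_self (f := F t)
  have h2 : AdjoinRoot.mk (F t) (F t) = x t ^ 4 - (2 + o t t * x t) := by
    have h3 : AdjoinRoot.mk (F t) (F t) = AdjoinRoot.mk (F t) (X ^ 4 - (C 2 + C t * X)) := by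
      congr 1
    rw [h3]
    simp only [map_sub, map_add, map_mul, map_pow, AdjoinRoot.mk_X, AdjoinRoot.mk_C, x, o]
    rw [map_ofNat]
  rw [h2] at h
  exact sub_eq_zero.1 h

theorem indep (t c0 c1 c2 c3 : ZMod 4)
    (h : o t c0 + o t c1 * x t + o t c2 * x t ^ 2 + o t c3 * x t ^ 3 = 0) :
    c0 = 0 ∧ c1 = 0 ∧ c2 = 0 ∧ c3 = 0 := by
  set P : (ZMod 4)[X] := C c0 + C c1 * X + C c2 * X ^ 2 + C c3 * X ^ 3 with hP
  have h1 : AdjoinRoot.mk (F t) P = 0 := by
    rw [← h, hP]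
    simp [x, o]
  have h2 : P = 0 := by
    by_contra hne
    refine (F_monic t).not_dvd_of_natDegree_lt hne ?_ (AdjoinRoot.mk_eq_zero.1 h1)
    rw [F_deg, hP]
    refine lt_of_le_of_lt (b := 3) ?_ (by norm_num)
    compute_degree
  have h3 : ∀ n, P.coeff n = 0 := fun n => by rw [h2, coeff_zero]
  have e0 := h3 0
  have e1 := h3 1
  have e2 := h3 2
  have e3 := h3 3
  rw [hP] at e0 e1 e2 e3
  simp [coeff_X, coeff_C] at e0 e1 e2 e3
  exact ⟨e0, e1, e2, e3⟩

theorem decomp (t : ZMod 4) (a : A t) : ∃ c b, a = o t c + x t * b := by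
  obtain ⟨g, rfl⟩ := AdjoinRoot.mk_surjective a
  refine ⟨g.coeff 0, AdjoinRoot.mk (F t) g.divX, ?_⟩
  conv_lhs => rw [← divX_mul_X_add g]
  simp [x, o]
  ring

theorem finite (t : ZMod 4) : Finite (A t) := by
  have : Module.Finite (ZMod 4) (A t) := (AdjoinRoot.powerBasis' (F_monic t)).finite
  exact Module.finite_of_finite (ZMod 4)

theorem ntriv (t : ZMod 4) : Nontrivial (A t) := by
  refine ⟨⟨0, 1, fun h => ?_⟩⟩
  have := indep t 1 0 0 0 (by simp [← h])
  exact absurd this.1 (by decide)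

/-! Properties of the rings `A t` -/

theorem o_two (t : ZMod 4) : o t 2 = 2 := map_ofNat (o t) 2

/-- the unit `w` with `x ^ 4 = 2 w` -/
theorem x4w (t s : ZMod 4) (hs : t = 2 * s) : x t ^ 4 = 2 * (1 + o t s * x t) := by
  rw [x4, hs, map_mul, ← hs, o_two]
  ring

theorem x8 (t s : ZMod 4) (hs : t = 2 * s) : x t ^ 8 = 0 := by
  have h4 := four t
  have hx := x4w t s hs
  have : x t ^ 8 = (x t ^ 4) ^ 2 := by ring
  rw [this, hx]
  linear_combination (1 + o t s * x t) ^ 2 * h4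

theorem two_eq (t s : ZMod 4) (hs : t = 2 * s) : ∃ w, IsUnit w ∧ x t ^ 4 = 2 * w := by
  refine ⟨1 + o t s * x t, ?_, x4w t s hs⟩
  have hn : IsNilpotent (o t s * x t) := ⟨8, by rw [mul_pow, x8 t s hs, mul_zero]⟩
  exact hn.isUnit_one_add

theorem x_dvd_two (t s : ZMod 4) (hs : t = 2 * s) : x t ^ 4 ∣ (2 : A t) := by
  obtain ⟨w, ⟨w', rfl⟩, h⟩ := two_eq t s hs
  refine ⟨(↑w'⁻¹ : A t), ?_⟩
  rw [h, mul_assoc, Units.mul_inv, mul_one]

theorem res (t s : ZMod 4) (hs : t = 2 * s) (a : A t) : x t ∣ a ∨ x t ∣ a - 1 := by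
  obtain ⟨c, b, rfl⟩ := decomp t a
  have h2 : x t ∣ (2 : A t) := dvd_trans (dvd_pow_self _ (by norm_num)) (x_dvd_two t s hs)
  have hc : c = 0 ∨ c = 1 ∨ c = 2 ∨ c = 3 := by
    revert c
    decide
  rcases hc with rfl | rfl | rfl | rfl
  · left
    rw [map_zero, zero_add]
    exact dvd_mul_right _ _
  · right
    rw [map_one, add_sub_cancel_left]
    exact dvd_mul_right _ _
  · left
    rw [o_two]
    exact dvd_add h2 (dvd_mul_right _ _)
  · right
    have : (o t 3 : A t) = 3 := map_ofNat (o t) 3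
    rw [this]
    have e : (3 + x t * b - 1 : A t) = 2 + x t * b := by ring
    rw [e]
    exact dvd_add h2 (dvd_mul_right _ _)

theorem x7 (t s : ZMod 4) (hs : t = 2 * s) : x t ^ 7 ≠ 0 := by
  intro h
  have h4 := four t
  have hx := x4w t s hs
  have e : x t ^ 7 = 2 * x t ^ 3 := by
    have : x t ^ 7 = x t ^ 4 * x t ^ 3 := by ring
    rw [this, hx]
    have e2 : 2 * (1 + o t s * x t) * x t ^ 3 = 2 * x t ^ 3 + 2 * o t s * x t ^ 4 := by ring
    rw [e2, hx]
    linear_combination (o t s * (1 + o t s * x t)) * h4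
  rw [e] at h
  have := indep t 0 0 0 2 (by rw [o_two]; simpa using h)
  exact absurd this.2.2.2 (by decide)

/-! The case `t = 0` -/

theorem c_two_sq {R : Type} [CommRing R] (h4 : (4 : R) = 0) (x b0 b1 b2 w : R)
    (hx : x ^ 4 = 2 * w) :
    2 * (b0 + x * (b1 + x * b2)) ^ 2 = 2 * b0 ^ 2 + 2 * b1 ^ 2 * x ^ 2 := by
  linear_combination (b0 * x * (b1 + x * b2) + x ^ 3 * b1 * b2 + w * b2 ^ 2) * h4 + (2 * b2 ^ 2) * hx

theorem c_pow_four {R : Type} [CommRing R] (h4 : (4 : R) = 0) (x a0 a1 a2 w : R)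
    (hx : x ^ 4 = 2 * w) :
    (a0 + x * (a1 + x * a2)) ^ 4 = a0 ^ 4 + 2 * a0 ^ 2 * a1 ^ 2 * x ^ 2 + a1 ^ 4 * x ^ 4 := by
  grind

end Pool.Agent.H23.CC
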