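import Pool.Agent.H23.CC.Ex

set_option autoImplicit false

namespace Pool.Agent.H23.CC

open Pool.Agent.H56.Circ

theorem mem_ghost {R : Type} [CommRing R] (h4 : (4 : R) = 0) (g : R) :
    g ∈ ghostSet 2 2 R ↔ ∃ a b : R, g = a ^ 4 + 2 * b ^ 2 := by
  unfold ghostSet
  simp only [Set.mem_setOf_eq, Finset.sum_range_succ, Finset.sum_range_zero]
  constructor
  · rintro ⟨α, h⟩
    refine ⟨α 0, α 1, ?_⟩
    rw [h]
    norm_num
    linear_combination (α 2) * h4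
  · rintro ⟨a, b, h⟩
    refine ⟨fun i => if i = 0 then a else if i = 1 then b else 0, ?_⟩
    rw [h]
    norm_num

/-- The general element of `G_2`. -/
theorem gen (t s : ZMod 4) (hs : t = 2 * s) (c c' d d' : ZMod 4) (b b' : A t) :
    (o t c + x t * (o t c' + x t * b)) ^ 4 + 2 * (o t d + x t * (o t d' + x t * b')) ^ 2 =
      o t (c ^ 4 + 2 * c' ^ 4 + 2 * d ^ 2) + o t (t * c' ^ 4) * x t +
        o t (2 * (c ^ 2 * c' ^ 2 + d' ^ 2)) * x t ^ 2 := by
  have hx := x4w t s hs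
  rw [c_pow_four (four t) _ _ _ _ _ hx, c_two_sq (four t) _ _ _ _ _ hx, x4]
  simp only [map_add, map_mul, map_pow, o_two]
  ring

theorem ghost_iff (t s : ZMod 4) (hs : t = 2 * s) (g : A t) : g ∈ ghostSet 2 2 (A t) ↔
    ∃ c c' d d' : ZMod 4, g = o t (c ^ 4 + 2 * c' ^ 4 + 2 * d ^ 2) + o t (t * c' ^ 4) * x t +
        o t (2 * (c ^ 2 * c' ^ 2 + d' ^ 2)) * x t ^ 2 := by
  rw [mem_ghost (four t)]
  constructor
  · rintro ⟨a, b, rfl⟩
    obtain ⟨c, a', rfl⟩ := decomp t a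
    obtain ⟨c', a'', rfl⟩ := decomp t a'
    obtain ⟨d, b', rfl⟩ := decomp t b
    obtain ⟨d', b'', rfl⟩ := decomp t b'
    exact ⟨c, c', d, d', gen t s hs c c' d d' a'' b''⟩
  · rintro ⟨c, c', d, d', rfl⟩
    exact ⟨_, _, (gen t s hs c c' d d' 0 0).symm⟩

/-- The coordinates of an element. -/
noncomputable def el (t : ZMod 4) (v : ZMod 4 × ZMod 4 × ZMod 4) : A t :=
  o t v.1 + o t v.2.1 * x t + o t v.2.2 * x t ^ 2

theorem el_inj (t : ZMod 4) : Function.Injective (el t) := by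
  rintro ⟨a0, a1, a2⟩ ⟨b0, b1, b2⟩ h
  simp only [el] at h
  have := indep t (a0 - b0) (a1 - b1) (a2 - b2) 0 (by
    simp only [map_sub, map_zero]
    linear_combination h)
  obtain ⟨h0, h1, h2, -⟩ := this
  rw [sub_eq_zero] at h0 h1 h2
  rw [h0, h1, h2]

/-- The coordinates of the elements of `G_2`. -/
def S (t : ZMod 4) : Finset (ZMod 4 × ZMod 4 × ZMod 4) :=
  (Finset.univ : Finset (ZMod 4 × ZMod 4 × ZMod 4 × ZMod 4)).image fun v =>
    (v.1 ^ 4 + 2 * v.2.1 ^ 4 + 2 * v.2.2.1 ^ 2, t * v.2.1 ^ 4,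
      2 * (v.1 ^ 2 * v.2.1 ^ 2 + v.2.2.2 ^ 2))

theorem ghost_eq (t s : ZMod 4) (hs : t = 2 * s) :
    ghostSet 2 2 (A t) = el t '' (S t : Set (ZMod 4 × ZMod 4 × ZMod 4)) := by
  ext g
  rw [ghost_iff t s hs]
  simp only [S, Finset.coe_image, Finset.coe_univ, Set.image_univ, Set.mem_image,
    Set.mem_range, exists_exists_eq_and, el]
  constructor
  · rintro ⟨c, c', d, d', rfl⟩
    exact ⟨(c, c', d, d'), rfl⟩
  · rintro ⟨⟨c, c', d, d'⟩, rfl⟩
    exact ⟨c, c', d, d', rfl⟩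

theorem ghost_card (t s : ZMod 4) (hs : t = 2 * s) :
    (ghostSet 2 2 (A t)).ncard = (S t).card := by
  rw [ghost_eq t s hs, Set.ncard_image_of_injective _ (el_inj t), Set.ncard_coe_finset]

theorem card_S0 : (S 0).card = 8 := by
  decide +kernel

theorem card_S2 : (S 2).card = 16 := by
  decide +kernel

theorem ghost_card0 : (ghostSet 2 2 (A 0)).ncard = 8 := by
  rw [ghost_card 0 0 (by decide), card_S0]

theorem ghost_card2 : (ghostSet 2 2 (A 2)).ncard = 16 := by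
  rw [ghost_card 2 1 (by decide), card_S2]

end Pool.Agent.H23.CC
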